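import Pool.Agent.K7.H60.UP.Stm

/-!
# MP_d3fa2a_an: comparison of the integral means of `1 + κ z` and of the extremal quadratic
-/

set_option autoImplicit false

namespace Pool.Agent.K7.H11.UP

open Real MeasureTheory

/-- `g ^ p - h ^ p ≥ p h ^ (p - 1) (g - h)` -/
theorem bern (p g h : ℝ) (hp : 1 ≤ p) (hg : 0 ≤ g) (hh : 0 < h) :
    h ^ p + p * h ^ (p - 1) * (g - h) ≤ g ^ p := by
  have h1 : -1 ≤ g / h - 1 := by
    have : 0 ≤ g / h := by positivity
    linarith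
  have h2 := one_add_mul_self_le_rpow_one_add h1 hp
  have h3 : 1 + (g / h - 1) = g / h := by ring
  rw [h3, Real.div_rpow hg hh.le] at h2
  have h4 : 0 < h ^ p := Real.rpow_pos_of_pos hh p
  have h5 : h ^ (p - 1) = h ^ p / h := by
    rw [Real.rpow_sub_one hh.ne']
  rw [le_div_iff₀ h4] at h2
  rw [h5]
  have h6 : h ^ p + p * (h ^ p / h) * (g - h) = (1 + p * (g / h - 1)) * h ^ p := by
    field_simp
  rw [h6]
  exact h2

/-- the comparison -/
theorem cmp (p κ : ℝ) (hp : 1 ≤ p) (hκ0 : 0 ≤ κ) (hκ : κ ≤ 9 / 10) :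
    ∫ t in (0 : ℝ)..(2 * Real.pi), (1 + κ ^ 2 + 2 * κ * Real.cos t) ^ p ≤
      ∫ t in (0 : ℝ)..(2 * Real.pi),
        (2 + 16 * Real.sqrt 2 / 9 * Real.cos t + 2 / 3 * Real.cos (2 * t)) ^ p := by
  set s : ℝ := Real.sqrt 2 with hs
  have hs2 : s ^ 2 = 2 := Real.sq_sqrt (by norm_num)
  have hs0 : 0 ≤ s := Real.sqrt_nonneg 2
  have hs1 : (1.4142 : ℝ) ≤ s := by nlinarith
  set c : ℝ := 16 * s / 9 - 2 * κ with hc
  have hc0 : 2 / 3 ≤ c := by rw [hc]; linarith
  -- positivity of the two functions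
  have hh : ∀ t : ℝ, 0 < 1 + κ ^ 2 + 2 * κ * Real.cos t := by
    intro t
    nlinarith [Real.neg_one_le_cos t, mul_nonneg hκ0 (by linarith [Real.neg_one_le_cos t] : 0 ≤ 1 + Real.cos t)]
  have hg : ∀ t : ℝ, 0 ≤ 2 + 16 * s / 9 * Real.cos t + 2 / 3 * Real.cos (2 * t) := by
    intro t
    rw [Real.cos_two_mul]
    nlinarith [sq_nonneg (Real.cos t + 2 * s / 3)]
  have hcont_h : Continuous (fun t : ℝ => 1 + κ ^ 2 + 2 * κ * Real.cos t) := by fun_prop
  have hcont_g : Continuous (fun t : ℝ => 2 + 16 * s / 9 * Real.cos t + 2 / 3 * Real.cos (2 * t)) := by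
    fun_prop
  have hrpow : ∀ r : ℝ, Continuous (fun t : ℝ => (1 + κ ^ 2 + 2 * κ * Real.cos t) ^ r) := by
    intro r
    exact hcont_h.rpow_const (fun t => Or.inl (hh t).ne')
  have hgp : Continuous (fun t : ℝ => (2 + 16 * s / 9 * Real.cos t + 2 / 3 * Real.cos (2 * t)) ^ p) :=
    hcont_g.rpow_const (fun t => Or.inr (by linarith))
  -- integration by parts
  have hu : ∀ x ∈ Set.uIcc (0 : ℝ) (2 * Real.pi),
      HasDerivAt (fun t : ℝ => p * (1 + κ ^ 2 + 2 * κ * Real.cos t) ^ (p - 1))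
        (p * ((2 * κ * (-Real.sin x)) * (p - 1) * (1 + κ ^ 2 + 2 * κ * Real.cos x) ^ (p - 1 - 1))) x := by
    intro x _
    have h1 : HasDerivAt (fun t : ℝ => 1 + κ ^ 2 + 2 * κ * Real.cos t) (2 * κ * (-Real.sin x)) x :=
      ((Real.hasDerivAt_cos x).const_mul (2 * κ)).const_add (1 + κ ^ 2)
    exact (h1.rpow_const (Or.inl (hh x).ne')).const_mul p
  have hv : ∀ x ∈ Set.uIcc (0 : ℝ) (2 * Real.pi),
      HasDerivAt (fun t : ℝ => c * Real.sin t + 1 / 3 * Real.sin (2 * t))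
        (c * Real.cos x + 1 / 3 * (Real.cos (2 * x) * 2)) x := by
    intro x _
    have h1 : HasDerivAt (fun t : ℝ => Real.sin (2 * t)) (Real.cos (2 * x) * 2) x := by
      have h2 : HasDerivAt (fun t : ℝ => 2 * t) 2 x := by
        simpa using (hasDerivAt_id x).const_mul (2 : ℝ)
      exact h2.sin
    exact ((Real.hasDerivAt_sin x).const_mul c).add (h1.const_mul (1 / 3))
  have hu' : IntervalIntegrable (fun x : ℝ =>
      p * ((2 * κ * (-Real.sin x)) * (p - 1) * (1 + κ ^ 2 + 2 * κ * Real.cos x) ^ (p - 1 - 1)))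
      volume 0 (2 * Real.pi) := by
    apply Continuous.intervalIntegrable
    have := hrpow (p - 1 - 1)
    fun_prop
  have hv' : IntervalIntegrable (fun x : ℝ => c * Real.cos x + 1 / 3 * (Real.cos (2 * x) * 2))
      volume 0 (2 * Real.pi) := by
    apply Continuous.intervalIntegrable
    fun_prop
  have hibp := intervalIntegral.integral_mul_deriv_eq_deriv_mul hu hv hu' hv'
  have hend : c * Real.sin (2 * Real.pi) + 1 / 3 * Real.sin (2 * (2 * Real.pi)) = 0 := by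
    have h1 : Real.sin (2 * (2 * Real.pi)) = 0 := by
      have := Real.sin_nat_mul_pi 4
      have h2 : 2 * (2 * Real.pi) = ((4 : ℕ) : ℝ) * Real.pi := by push_cast; ring
      rw [h2]; exact this
    rw [h1, Real.sin_two_pi]
    ring
  have hstart : c * Real.sin 0 + 1 / 3 * Real.sin (2 * 0) = 0 := by
    simp
  rw [hend, hstart, mul_zero, mul_zero, sub_zero, zero_sub] at hibp
  -- the sign of the integral
  have hsign : 0 ≤ ∫ x in (0 : ℝ)..(2 * Real.pi), p * (1 + κ ^ 2 + 2 * κ * Real.cos x) ^ (p - 1) *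
      (c * Real.cos x + 1 / 3 * (Real.cos (2 * x) * 2)) := by
    rw [hibp, ← intervalIntegral.integral_neg]
    apply intervalIntegral.integral_nonneg (by positivity)
    intro x _
    have h1 : 0 ≤ (1 + κ ^ 2 + 2 * κ * Real.cos x) ^ (p - 1 - 1) := (Real.rpow_pos_of_pos (hh x) _).le
    rw [Real.sin_two_mul]
    have h2 : -(p * (2 * κ * -Real.sin x * (p - 1) * (1 + κ ^ 2 + 2 * κ * Real.cos x) ^ (p - 1 - 1)) *
        (c * Real.sin x + 1 / 3 * (2 * Real.sin x * Real.cos x))) =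
        2 * κ * p * (p - 1) * (1 + κ ^ 2 + 2 * κ * Real.cos x) ^ (p - 1 - 1) * Real.sin x ^ 2 *
        (c + 2 / 3 * Real.cos x) := by ring
    rw [h2]
    have h3 : 0 ≤ c + 2 / 3 * Real.cos x := by linarith [Real.neg_one_le_cos x]
    have h4 : 0 ≤ p - 1 := by linarith
    have h5 : 0 ≤ p := by linarith
    positivity
  have hsign2 : 0 ≤ ∫ x in (0 : ℝ)..(2 * Real.pi), p * (1 + κ ^ 2 + 2 * κ * Real.cos x) ^ (p - 1) *
      (1 - κ ^ 2) := by
    apply intervalIntegral.integral_nonneg (by positivity)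
    intro x _
    have h1 : 0 ≤ (1 + κ ^ 2 + 2 * κ * Real.cos x) ^ (p - 1) := (Real.rpow_pos_of_pos (hh x) _).le
    have h3 : 0 ≤ 1 - κ ^ 2 := by nlinarith
    have h5 : 0 ≤ p := by linarith
    positivity
  have hi1 : IntervalIntegrable (fun x : ℝ => (1 + κ ^ 2 + 2 * κ * Real.cos x) ^ p)
      volume 0 (2 * Real.pi) := (hrpow p).intervalIntegrable _ _
  have hi2 : IntervalIntegrable (fun x : ℝ => p * (1 + κ ^ 2 + 2 * κ * Real.cos x) ^ (p - 1) *
      (c * Real.cos x + 1 / 3 * (Real.cos (2 * x) * 2))) volume 0 (2 * Real.pi) := by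
    apply Continuous.intervalIntegrable
    have := hrpow (p - 1)
    fun_prop
  have hi3 : IntervalIntegrable (fun x : ℝ => p * (1 + κ ^ 2 + 2 * κ * Real.cos x) ^ (p - 1) *
      (1 - κ ^ 2)) volume 0 (2 * Real.pi) := by
    apply Continuous.intervalIntegrable
    have := hrpow (p - 1)
    fun_prop
  have hle : ∫ x in (0 : ℝ)..(2 * Real.pi), ((1 + κ ^ 2 + 2 * κ * Real.cos x) ^ p +
      (p * (1 + κ ^ 2 + 2 * κ * Real.cos x) ^ (p - 1) *
      (c * Real.cos x + 1 / 3 * (Real.cos (2 * x) * 2)) +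
      p * (1 + κ ^ 2 + 2 * κ * Real.cos x) ^ (p - 1) * (1 - κ ^ 2))) ≤
      ∫ t in (0 : ℝ)..(2 * Real.pi),
        (2 + 16 * s / 9 * Real.cos t + 2 / 3 * Real.cos (2 * t)) ^ p := by
    apply intervalIntegral.integral_mono_on (by positivity) (hi1.add (hi2.add hi3))
      (hgp.intervalIntegrable _ _)
    intro x _
    have h1 := bern p (2 + 16 * s / 9 * Real.cos x + 2 / 3 * Real.cos (2 * x))
      (1 + κ ^ 2 + 2 * κ * Real.cos x) hp (hg x) (hh x)
    refine le_trans (le_of_eq ?_) h1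
    rw [hc]
    ring
  rw [intervalIntegral.integral_add hi1 (hi2.add hi3), intervalIntegral.integral_add hi2 hi3] at hle
  linarith

end Pool.Agent.K7.H11.UP
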