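import Pool.Agent.K7.H11.UP.GE2

/-!
# MP_d3fa2a_an: upper bounds for linear polynomials (`1 ≤ q ≤ 2`), and a sharper decomposition
-/

set_option autoImplicit false

namespace Pool.Agent.K7.H11.UP

/-- `κ = 73/100` -/
theorem J_lin_upper (p : ℝ) (hp1 : 1 / 2 ≤ p) (hp2 : p ≤ 1) :
    ∫ t in (0 : ℝ)..(2 * Real.pi), (1 + (73 / 100) ^ 2 + 2 * (73 / 100) * Real.cos t) ^ p ≤
      2 * Real.pi * (1 + p ^ 2 * (8 / 9)) := by
  have hh : ∀ t : ℝ, 0 < (1 : ℝ) + (73 / 100) ^ 2 + 2 * (73 / 100) * Real.cos t := by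
    intro t
    have := Real.neg_one_le_cos t
    nlinarith
  -- the square root
  have hsq : ∀ t : ℝ, ((1 : ℝ) + (73 / 100) ^ 2 + 2 * (73 / 100) * Real.cos t) ^ (1 / 2 : ℝ) ≤
      31 / 25 + 589 / 1000 * Real.cos t - 2 / 25 * Real.cos t ^ 2 := by
    intro t
    rw [← Real.sqrt_eq_rpow]
    have h1 := Real.neg_one_le_cos t
    have h2 := Real.cos_le_one t
    set x := Real.cos t
    have h3 : x ^ 2 ≤ 1 := by nlinarith
    apply Real.sqrt_le_iff.2
    constructor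
    · nlinarith
    · have h4 : (31 / 25 + 589 / 1000 * x - 2 / 25 * x ^ 2) ^ 2 -
        (1 + (73 / 100) ^ 2 + 2 * (73 / 100) * x) =
        (47 / 10000 + 9 / 12500 * x) + x ^ 2 * (148521 / 1000000 - 2356 / 25000 * x + 4 / 625 * x ^ 2) := by
        ring
      have h5 : 0 ≤ x ^ 2 * (148521 / 1000000 - 2356 / 25000 * x + 4 / 625 * x ^ 2) := by
        apply mul_nonneg (sq_nonneg x)
        nlinarith [sq_nonneg x]
      linarith
  have hpt : ∀ t : ℝ, ((1 : ℝ) + (73 / 100) ^ 2 + 2 * (73 / 100) * Real.cos t) ^ p ≤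
      (2 - 2 * p) * (31 / 25 + 589 / 1000 * Real.cos t - 2 / 25 * Real.cos t ^ 2) +
      (2 * p - 1) * ((1 : ℝ) + (73 / 100) ^ 2 + 2 * (73 / 100) * Real.cos t) := by
    intro t
    have h0 := hh t
    have h1 := hsq t
    set h := (1 : ℝ) + (73 / 100) ^ 2 + 2 * (73 / 100) * Real.cos t
    have h2 := Real.geom_mean_le_arith_mean2_weighted (by linarith : 0 ≤ 2 - 2 * p)
      (by linarith : 0 ≤ 2 * p - 1) (Real.rpow_nonneg h0.le (1 / 2 : ℝ)) h0.le (by ring)
    have h3 : (h ^ (1 / 2 : ℝ)) ^ (2 - 2 * p) * h ^ (2 * p - 1) = h ^ p := by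
      rw [← Real.rpow_mul h0.le, ← Real.rpow_add h0]
      congr 1
      ring
    rw [h3] at h2
    have h4 := mul_le_mul_of_nonneg_left h1 (by linarith : 0 ≤ 2 - 2 * p)
    linarith
  have hc : Continuous (fun t : ℝ => ((1 : ℝ) + (73 / 100) ^ 2 + 2 * (73 / 100) * Real.cos t) ^ p) := by
    apply Continuous.rpow_const (by fun_prop)
    intro t
    exact Or.inl (hh t).ne'
  have hle := intervalIntegral.integral_mono_on (μ := MeasureTheory.volume)
    (by positivity : (0 : ℝ) ≤ 2 * Real.pi) (hc.intervalIntegrable _ _)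
    ((by fun_prop : Continuous (fun t : ℝ =>
      (2 - 2 * p) * (31 / 25 + 589 / 1000 * Real.cos t - 2 / 25 * Real.cos t ^ 2) +
      (2 * p - 1) * ((1 : ℝ) + (73 / 100) ^ 2 + 2 * (73 / 100) * Real.cos t))).intervalIntegrable _ _)
    (fun t _ => hpt t)
  refine hle.trans ?_
  have h1 : ∫ t in (0 : ℝ)..(2 * Real.pi),
      ((2 - 2 * p) * (31 / 25 + 589 / 1000 * Real.cos t - 2 / 25 * Real.cos t ^ 2) +
      (2 * p - 1) * ((1 : ℝ) + (73 / 100) ^ 2 + 2 * (73 / 100) * Real.cos t)) =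
      2 * Real.pi * ((2 - 2 * p) * (6 / 5) + (2 * p - 1) * (1 + (73 / 100) ^ 2)) := by
    have e : ∀ t : ℝ, ((2 - 2 * p) * (31 / 25 + 589 / 1000 * Real.cos t - 2 / 25 * Real.cos t ^ 2) +
      (2 * p - 1) * ((1 : ℝ) + (73 / 100) ^ 2 + 2 * (73 / 100) * Real.cos t)) =
      (((2 - 2 * p) * (31 / 25) + (2 * p - 1) * (1 + (73 / 100) ^ 2)) +
       ((2 - 2 * p) * (589 / 1000) + (2 * p - 1) * (2 * (73 / 100))) * Real.cos t) +
       (-((2 - 2 * p) * (2 / 25))) * Real.cos t ^ 2 := by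
      intro t; ring
    simp_rw [e]
    rw [intervalIntegral.integral_add, intervalIntegral.integral_add,
      intervalIntegral.integral_const_mul, intervalIntegral.integral_const_mul, integral_cos,
      integral_cos_sq]
    · simp
      ring
    · exact continuous_const.intervalIntegrable _ _
    · exact (by fun_prop : Continuous _).intervalIntegrable _ _
    · exact (by fun_prop : Continuous _).intervalIntegrable _ _
    · exact (by fun_prop : Continuous _).intervalIntegrable _ _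
  rw [h1]
  apply mul_le_mul_of_nonneg_left _ (by positivity)
  nlinarith [sq_nonneg (p - 3 / 8)]

/-- the sharper decomposition -/
theorem decomp2 (a : ℂ) (b : ℝ) (hb : 0 ≤ b) (hb3 : b ≤ 1 / 3)
    (hx : |a.re| ≤ (1 + b) / Real.sqrt 2)
    (hy : a.re ^ 2 * (1 - 3 * b) ^ 2 + a.im ^ 2 * (1 + 3 * b) ^ 2 ≤
      (1 - 3 * b) ^ 2 * (1 + 3 * b) ^ 2 / 4) :
    ∃ (m : ℝ) (κ : ℂ), |m| ≤ 1 ∧ ‖κ‖ ≤ 73 / 100 ∧
      a = ((3 * b * m * (2 * Real.sqrt 2 / 3) : ℝ) : ℂ) + ((1 - 3 * b : ℝ) : ℂ) * κ := by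
  set s : ℝ := Real.sqrt 2 with hs
  have hs2 : s ^ 2 = 2 := Real.sq_sqrt (by norm_num)
  have hs0 : 0 < s := by positivity
  rw [le_div_iff₀ hs0] at hx
  by_cases hb1 : b = 1 / 3
  · -- then `im a = 0`
    have hi : a.im = 0 := by
      rw [hb1] at hy
      norm_num at hy
      nlinarith [sq_nonneg a.im]
    refine ⟨a.re * 3 / (2 * s), 0, ?_, by norm_num, ?_⟩
    · rw [abs_div, abs_mul, abs_of_pos (by positivity : 0 < 2 * s), div_le_one (by positivity)]
      rw [hb1] at hx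
      have : |(3 : ℝ)| = 3 := by norm_num
      rw [this]
      nlinarith [abs_nonneg a.re]
    · rw [hb1]
      have e3 : 3 * (1 / 3) * (a.re * 3 / (2 * s)) * (2 * s / 3) = a.re := by
        field_simp
      rw [e3, mul_zero, add_zero]
      apply Complex.ext
      · simp
      · simp [hi]
  have hε : 0 < 1 - 3 * b := by
    rcases lt_or_eq_of_le hb3 with h | h
    · linarith
    · exact absurd h hb1
  -- general statement
  have main : ∀ m : ℝ, |m| ≤ 1 →
      (a.re - 2 * s * b * m) ^ 2 + a.im ^ 2 ≤ (19 / 36) * (1 - 3 * b) ^ 2 →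
      ∃ (m : ℝ) (κ : ℂ), |m| ≤ 1 ∧ ‖κ‖ ≤ 73 / 100 ∧
      a = ((3 * b * m * (2 * s / 3) : ℝ) : ℂ) + ((1 - 3 * b : ℝ) : ℂ) * κ := by
    intro m hm hr
    refine ⟨m, (a - ((3 * b * m * (2 * s / 3) : ℝ) : ℂ)) / ((1 - 3 * b : ℝ) : ℂ), hm, ?_, ?_⟩
    · rw [norm_div, Complex.norm_real, Real.norm_eq_abs, abs_of_pos hε, div_le_iff₀ hε]
      apply le_of_sq_le_sq _ (by positivity)
      rw [← Complex.normSq_eq_norm_sq, Complex.normSq_apply]
      have e1 : (a - ((3 * b * m * (2 * s / 3) : ℝ) : ℂ)).re = a.re - 2 * s * b * m := by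
        rw [Complex.sub_re, Complex.ofReal_re]; ring
      have e2 : (a - ((3 * b * m * (2 * s / 3) : ℝ) : ℂ)).im = a.im := by
        rw [Complex.sub_im, Complex.ofReal_im]; ring
      rw [e1, e2]
      nlinarith [sq_nonneg (1 - 3 * b)]
    · have : ((1 - 3 * b : ℝ) : ℂ) ≠ 0 := by exact_mod_cast hε.ne'
      field_simp
      ring
  have hD : 0 < (1 + 3 * b) ^ 2 := by positivity
  -- the case of a large real part
  have large : ∀ x : ℝ, 2 * s * b ≤ x → x * s ≤ 1 + b → x ^ 2 = a.re ^ 2 →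
      (x - 2 * s * b) ^ 2 + a.im ^ 2 ≤ (19 / 36) * (1 - 3 * b) ^ 2 := by
    intro x hx1 hx2 hx3
    obtain ⟨τ, hτ⟩ : ∃ τ : ℝ, τ = (x - 2 * s * b) / (1 - 3 * b) := ⟨_, rfl⟩
    have hτ0 : 0 ≤ τ := by rw [hτ]; apply div_nonneg (by linarith) hε.le
    have hxτ : x = τ * (1 - 3 * b) + 2 * s * b := by
      rw [hτ, div_mul_cancel₀ _ hε.ne']; ring
    have hτ1 : τ * s ≤ 1 := by
      have : (τ * s) * (1 - 3 * b) ≤ 1 * (1 - 3 * b) := by
        have : (τ * s) * (1 - 3 * b) = x * s - 2 * s ^ 2 * b := by rw [hxτ]; ring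
        rw [this, hs2]; linarith
      exact le_of_mul_le_mul_right this hε
    -- key polynomial inequality
    have hkey : τ ^ 2 * (1 + 3 * b) ^ 2 - x ^ 2 ≤ 5 / 18 * (1 + 3 * b) ^ 2 := by
      have e1 : τ ^ 2 * (1 + 3 * b) ^ 2 - x ^ 2 = 2 * b * ((3 * (τ * s) - 2) * ((τ * s) + 2 * b)) := by
        have e0 : (τ * s) ^ 2 = 2 * τ ^ 2 := by rw [mul_pow, hs2]; ring
        rw [hxτ]
        linear_combination (-4 * b ^ 2 - 0 * b) * hs2 + (6 * b) * (-e0) + 0 * hs2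
      rw [e1]
      have h5 : 0 ≤ τ * s := mul_nonneg hτ0 hs0.le
      have h6 : (3 * (τ * s) - 2) * ((τ * s) + 2 * b) ≤ 1 + 2 * b := by
        nlinarith
      have h7 := mul_le_mul_of_nonneg_left h6 (by linarith : 0 ≤ 2 * b)
      nlinarith [mul_nonneg hb hε.le]
    have hy' : a.im ^ 2 * (1 + 3 * b) ^ 2 ≤ (1 - 3 * b) ^ 2 * ((1 + 3 * b) ^ 2 / 4 - x ^ 2) := by
      rw [hx3]; nlinarith
    have e2 : (x - 2 * s * b) ^ 2 = τ ^ 2 * (1 - 3 * b) ^ 2 := by rw [hxτ]; ring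
    rw [e2]
    have h8 : (τ ^ 2 * (1 - 3 * b) ^ 2 + a.im ^ 2) * (1 + 3 * b) ^ 2 ≤
        (19 / 36 * (1 - 3 * b) ^ 2) * (1 + 3 * b) ^ 2 := by
      have := mul_le_mul_of_nonneg_left hkey (sq_nonneg (1 - 3 * b))
      nlinarith
    exact le_of_mul_le_mul_right h8 hD
  have him : a.im ^ 2 ≤ (19 / 36) * (1 - 3 * b) ^ 2 := by
    have h1 : a.im ^ 2 * (1 + 3 * b) ^ 2 ≤ (1 / 4 * (1 - 3 * b) ^ 2) * (1 + 3 * b) ^ 2 := by
      nlinarith [mul_nonneg (sq_nonneg a.re) (sq_nonneg (1 - 3 * b))]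
    have h2 := le_of_mul_le_mul_right h1 hD
    nlinarith [sq_nonneg (1 - 3 * b)]
  by_cases hc1 : 2 * s * b < a.re
  · apply main 1 (by simp)
    have := large a.re hc1.le (by nlinarith [le_abs_self a.re]) rfl
    rw [mul_one]
    exact this
  by_cases hc2 : a.re < -(2 * s * b)
  · apply main (-1) (by simp)
    have := large (-a.re) (by linarith) (by nlinarith [neg_abs_le a.re]) (by ring)
    have e : a.re - 2 * s * b * -1 = -(-a.re - 2 * s * b) := by ring
    rw [e, neg_sq]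
    exact this
  · push Not at hc1 hc2
    rcases eq_or_lt_of_le hb with hb0 | hb0
    · apply main 0 (by simp)
      have : a.re = 0 := by
        rw [← hb0] at hc1 hc2
        linarith
      rw [this]
      nlinarith
    · apply main (a.re / (2 * s * b))
      · rw [abs_div, abs_of_pos (by positivity : 0 < 2 * s * b), div_le_one (by positivity)]
        exact abs_le.2 ⟨hc2, hc1⟩
      · have : a.re - 2 * s * b * (a.re / (2 * s * b)) = 0 := by
          field_simp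
          ring
        rw [this]
        nlinarith

end Pool.Agent.K7.H11.UP
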