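import Pool.Agent.K7.H11.UP.LOW
import Pool.Agent.K7.H11.UP.UPP

/-!
# MP_d3fa2a_an: the maximal integral means for cubic polynomials, all `q ≥ 1`
-/

set_option autoImplicit false

namespace Pool.Agent.K7.H11.UP

open Pool.Agent.K7.H60.UP

/-- the full condition at `c = 1` -/
theorem nec2 (a : ℂ) (b : ℝ) (hb : 0 ≤ b) (hb3 : b ≤ 1 / 3)
    (h : Set.InjOn (fun z : ℂ => z + a * z ^ 2 + (b : ℂ) * z ^ 3) (Metric.ball 0 1)) :
    a.re ^ 2 * (1 - 3 * b) ^ 2 + a.im ^ 2 * (1 + 3 * b) ^ 2 ≤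
      (1 - 3 * b) ^ 2 * (1 + 3 * b) ^ 2 / 4 := by
  have hs : ∀ s ∈ Set.Ioo (1 / 2 : ℝ) 1,
      4 * s ^ 2 * (a.re ^ 2 * (1 - (4 * s ^ 2 - 1) * b) ^ 2 +
        a.im ^ 2 * (1 + (4 * s ^ 2 - 1) * b) ^ 2) ≤ (1 - ((4 * s ^ 2 - 1) * b) ^ 2) ^ 2 := by
    intro s hs
    have hs0 : 0 < s := by linarith [hs.1]
    have hs1 : s ^ 2 < 1 := by nlinarith [hs.2]
    have h1 := qua2 _ _ (fun z hz =>
      Pool.Agent.K7.H90.UPCOEF.key a b h (s ^ 2) (by positivity) hs1 z hz)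
    rw [Real.sqrt_sq hs0.le] at h1
    set B : ℝ := (4 * s ^ 2 - 1) * b with hB
    have hB0 : 0 ≤ B := mul_nonneg (by nlinarith [hs.1]) hb
    have e1 : ((4 * s ^ 2 - 1 : ℝ) : ℂ) * (b : ℂ) = (B : ℂ) := by
      rw [hB]; push_cast; ring
    rw [e1, Complex.norm_real, Real.norm_eq_abs, sq_abs] at h1
    have h2 := pow_le_pow_left₀ (norm_nonneg _) h1 2
    rw [← Complex.normSq_eq_norm_sq, Complex.normSq_apply] at h2
    have e2 : (2 * (s : ℂ) * a - (starRingEnd ℂ) (2 * (s : ℂ) * a) * (B : ℂ)).im =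
        2 * s * a.im * (1 + B) := by
      simp [Complex.mul_im, Complex.mul_re]
      ring
    have e3 : (2 * (s : ℂ) * a - (starRingEnd ℂ) (2 * (s : ℂ) * a) * (B : ℂ)).re =
        2 * s * a.re * (1 - B) := by
      simp [Complex.mul_im, Complex.mul_re]
      ring
    rw [e2, e3] at h2
    nlinarith
  have hcl : IsClosed {s : ℝ | 4 * s ^ 2 * (a.re ^ 2 * (1 - (4 * s ^ 2 - 1) * b) ^ 2 +
        a.im ^ 2 * (1 + (4 * s ^ 2 - 1) * b) ^ 2) ≤ (1 - ((4 * s ^ 2 - 1) * b) ^ 2) ^ 2} := by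
    apply isClosed_le <;> fun_prop
  have hsub := closure_minimal (fun s hs' => hs s hs' :
    Set.Ioo (1 / 2 : ℝ) 1 ⊆ {s : ℝ | 4 * s ^ 2 * (a.re ^ 2 * (1 - (4 * s ^ 2 - 1) * b) ^ 2 +
        a.im ^ 2 * (1 + (4 * s ^ 2 - 1) * b) ^ 2) ≤ (1 - ((4 * s ^ 2 - 1) * b) ^ 2) ^ 2}) hcl
  rw [closure_Ioo (by norm_num)] at hsub
  have h1 := hsub (Set.right_mem_Icc.2 (by norm_num : (1 / 2 : ℝ) ≤ 1))
  have h2 : 4 * (1 : ℝ) ^ 2 * (a.re ^ 2 * (1 - (4 * 1 ^ 2 - 1) * b) ^ 2 +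
        a.im ^ 2 * (1 + (4 * 1 ^ 2 - 1) * b) ^ 2) ≤ (1 - ((4 * 1 ^ 2 - 1) * b) ^ 2) ^ 2 := h1
  nlinarith

/-- comparison with the linear polynomials, `1 ≤ q ≤ 2` -/
theorem J_cmp2 (q : ℝ) (hq : 1 ≤ q) (hq2 : q ≤ 2) (κ : ℂ) (hκ : ‖κ‖ ≤ 73 / 100) :
    J q κ 0 ≤ J q ((2 * Real.sqrt 2 / 3 : ℝ) : ℂ) ((1 / 3 : ℝ) : ℂ) := by
  have h1 := J_rot q (Complex.arg κ) (‖κ‖ : ℂ) 0
  rw [Complex.norm_mul_exp_arg_mul_I, zero_mul] at h1
  rw [h1]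
  have h2 := J_mix q hq ((1 + ‖κ‖ / (73 / 100)) / 2)
    (by have := norm_nonneg κ; positivity)
    (by
      have : ‖κ‖ / (73 / 100) ≤ 1 := by rw [div_le_one (by norm_num)]; exact hκ
      linarith)
    ((73 / 100 : ℝ) : ℂ) 0 (-((73 / 100 : ℝ) : ℂ)) 0
  rw [J_neg] at h2
  have e1 : (((1 + ‖κ‖ / (73 / 100)) / 2 : ℝ) : ℂ) * ((73 / 100 : ℝ) : ℂ) +
      ((1 - (1 + ‖κ‖ / (73 / 100)) / 2 : ℝ) : ℂ) * -((73 / 100 : ℝ) : ℂ) = (‖κ‖ : ℂ) := by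
    push_cast; ring
  rw [e1, mul_zero, mul_zero, add_zero] at h2
  have h3 : J q ((73 / 100 : ℝ) : ℂ) 0 ≤ J q ((2 * Real.sqrt 2 / 3 : ℝ) : ℂ) ((1 / 3 : ℝ) : ℂ) := by
    refine le_trans ?_ (lower q (by linarith))
    rw [J_lin]
    exact J_lin_upper (q / 2) (by linarith) (by linarith)
  linarith

/-- the bound, for a real nonnegative last coefficient -/
theorem real_bound1 (q : ℝ) (hq : 1 ≤ q) (a : ℂ) (b : ℝ) (hb : 0 ≤ b)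
    (h : Set.InjOn (fun z : ℂ => z + a * z ^ 2 + (b : ℂ) * z ^ 3) (Metric.ball 0 1)) :
    J q a b ≤ J q ((2 * Real.sqrt 2 / 3 : ℝ) : ℂ) ((1 / 3 : ℝ) : ℂ) := by
  rcases le_total 2 q with hq2 | hq2
  · exact real_bound q hq2 a b hb h
  obtain ⟨hb3, hx, _⟩ := nec a b hb h
  have hy := nec2 a b hb hb3 h
  obtain ⟨m, κ, hm, hκ, ha⟩ := decomp2 a b hb hb3 hx hy
  have hm' := abs_le.1 hm
  set A : ℂ := ((2 * Real.sqrt 2 / 3 : ℝ) : ℂ) with hA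
  have hmid : J q ((m : ℂ) * A) ((1 / 3 : ℝ) : ℂ) ≤ J q A ((1 / 3 : ℝ) : ℂ) := by
    have h1 := J_mix q hq ((1 + m) / 2) (by linarith) (by linarith)
      A ((1 / 3 : ℝ) : ℂ) (-A) ((1 / 3 : ℝ) : ℂ)
    rw [J_neg] at h1
    have e1 : (((1 + m) / 2 : ℝ) : ℂ) * A + ((1 - (1 + m) / 2 : ℝ) : ℂ) * -A = (m : ℂ) * A := by
      push_cast; ring
    have e2 : (((1 + m) / 2 : ℝ) : ℂ) * ((1 / 3 : ℝ) : ℂ) +
        ((1 - (1 + m) / 2 : ℝ) : ℂ) * ((1 / 3 : ℝ) : ℂ) = ((1 / 3 : ℝ) : ℂ) := by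
      push_cast; ring
    rw [e1, e2] at h1
    linarith
  have h1 := J_mix q hq (3 * b) (by linarith) (by linarith)
    ((m : ℂ) * A) ((1 / 3 : ℝ) : ℂ) κ 0
  have e1 : ((3 * b : ℝ) : ℂ) * ((m : ℂ) * A) + ((1 - 3 * b : ℝ) : ℂ) * κ = a := by
    rw [ha, hA]; push_cast; ring
  have e2 : ((3 * b : ℝ) : ℂ) * ((1 / 3 : ℝ) : ℂ) + ((1 - 3 * b : ℝ) : ℂ) * 0 = (b : ℂ) := by
    push_cast; ring
  rw [e1, e2] at h1
  have h2 := J_cmp2 q hq hq2 κ hκ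
  rw [← hA] at h2
  have h3 : 0 ≤ 1 - 3 * b := by linarith
  have h4 := mul_le_mul_of_nonneg_left hmid (by linarith : 0 ≤ 3 * b)
  have h5 := mul_le_mul_of_nonneg_left h2 h3
  linarith

/-- the bound, all `q ≥ 1` -/
theorem ge1 (q : ℝ) (hq : 1 ≤ q) (a b : ℂ)
    (h : Set.InjOn (fun z : ℂ => z + a * z ^ 2 + b * z ^ 3) (Metric.ball 0 1)) :
    ∫ t in (0 : ℝ)..(2 * Real.pi),
      ‖1 + a * Complex.exp (t * Complex.I) + b * Complex.exp (t * Complex.I) ^ 2‖ ^ q ≤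
    ∫ t in (0 : ℝ)..(2 * Real.pi),
      (2 + 16 * Real.sqrt 2 / 9 * Real.cos t + 2 / 3 * Real.cos (2 * t)) ^ (q / 2) := by
  rw [← J_ext]
  change J q a b ≤ _
  set φ : ℝ := -(Complex.arg b) / 2 with hφ
  set u : ℂ := Complex.exp (φ * Complex.I) with hu
  have hun : ‖u‖ = 1 := by rw [hu]; exact Complex.norm_exp_ofReal_mul_I φ
  have hu0 : u ≠ 0 := by rw [hu]; exact Complex.exp_ne_zero _
  have hbu : b * u ^ 2 = ((‖b‖ : ℝ) : ℂ) := by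
    have e1 : u ^ 2 = Complex.exp (-(Complex.arg b * Complex.I)) := by
      rw [hu, ← Complex.exp_nat_mul, hφ]
      congr 1
      push_cast
      ring
    rw [e1]
    calc b * Complex.exp (-(Complex.arg b * Complex.I))
        = (‖b‖ * Complex.exp (Complex.arg b * Complex.I)) *
            Complex.exp (-(Complex.arg b * Complex.I)) := by
          rw [Complex.norm_mul_exp_arg_mul_I]
      _ = ((‖b‖ : ℝ) : ℂ) := by
          rw [mul_assoc, ← Complex.exp_add, add_neg_cancel, Complex.exp_zero, mul_one]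
  have h1 := J_rot q φ a b
  rw [← hu, hbu] at h1
  rw [← h1]
  apply real_bound1 q hq _ _ (norm_nonneg b)
  rw [← hbu]
  intro z hz w hw hzw
  have hz' : u * z ∈ Metric.ball (0 : ℂ) 1 := by
    rw [mem_ball_zero_iff] at hz ⊢
    rw [norm_mul, hun, one_mul]; exact hz
  have hw' : u * w ∈ Metric.ball (0 : ℂ) 1 := by
    rw [mem_ball_zero_iff] at hw ⊢
    rw [norm_mul, hun, one_mul]; exact hw
  have h2 := h hz' hw' (by
    simp only at hzw ⊢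
    linear_combination u * hzw)
  exact mul_left_cancel₀ hu0 h2

end Pool.Agent.K7.H11.UP
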