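import Pool.Agent.K7.H90.UP_COEF
import Pool.Agent.K7.H13.UP_QUA

/-!
# MP_d3fa2a_an: necessary conditions for the univalence of a cubic polynomial
-/

set_option autoImplicit false

namespace Pool.Agent.K7.H11.UP

open Pool.Agent.K7.H60.UP

/-- quadratic polynomials without zero in the disc -/
theorem qua2 (A B : ℂ) (h : ∀ z : ℂ, ‖z‖ < 1 → 1 + A * z + B * z ^ 2 ≠ 0) :
    ‖A - (starRingEnd ℂ) A * B‖ ≤ 1 - ‖B‖ ^ 2 := by
  obtain ⟨s, hs⟩ := IsAlgClosed.exists_pow_nat_eq (A ^ 2 - 4 * B) (n := 2) (by norm_num)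
  obtain ⟨u, hu⟩ : ∃ u : ℂ, u = (-A + s) / 2 := ⟨_, rfl⟩
  obtain ⟨v, hv⟩ : ∃ v : ℂ, v = -A - u := ⟨_, rfl⟩
  have hA : A = -(u + v) := by rw [hv]; ring
  have hB : B = u * v := by
    rw [hv, hu]
    linear_combination (1 / 4 : ℂ) * hs
  have key : ∀ w : ℂ, w ^ 2 + A * w + B = 0 → ‖w‖ ≤ 1 := by
    intro w hw
    by_contra hc
    push Not at hc
    have hw0 : w ≠ 0 := by
      rintro rfl
      simp at hc
      linarith
    have hz : ‖w⁻¹‖ < 1 := by
      rw [norm_inv]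
      exact inv_lt_one_of_one_lt₀ hc
    apply h w⁻¹ hz
    field_simp
    linear_combination hw
  have hu1 : ‖u‖ ≤ 1 := key u (by rw [hA, hB]; ring)
  have hv1 : ‖v‖ ≤ 1 := key v (by rw [hA, hB]; ring)
  have hBn : ‖B‖ = ‖u‖ * ‖v‖ := by rw [hB, norm_mul]
  have hcu : (starRingEnd ℂ) u * u = ((‖u‖ ^ 2 : ℝ) : ℂ) := by
    rw [← Complex.normSq_eq_norm_sq, Complex.normSq_eq_conj_mul_self]
  have hcv : (starRingEnd ℂ) v * v = ((‖v‖ ^ 2 : ℝ) : ℂ) := by
    rw [← Complex.normSq_eq_norm_sq, Complex.normSq_eq_conj_mul_self]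
  have e1 : A - (starRingEnd ℂ) A * B =
      -(((1 - ‖v‖ ^ 2 : ℝ) : ℂ) * u + ((1 - ‖u‖ ^ 2 : ℝ) : ℂ) * v) := by
    rw [hA, hB, map_neg, map_add]
    push_cast
    push_cast at hcu hcv
    rw [← hcu, ← hcv]
    ring
  rw [e1, norm_neg]
  have h1 : 0 ≤ 1 - ‖v‖ ^ 2 := by nlinarith [norm_nonneg v]
  have h2 : 0 ≤ 1 - ‖u‖ ^ 2 := by nlinarith [norm_nonneg u]
  have h3 : ‖((1 - ‖v‖ ^ 2 : ℝ) : ℂ) * u + ((1 - ‖u‖ ^ 2 : ℝ) : ℂ) * v‖ ≤
      (1 - ‖v‖ ^ 2) * ‖u‖ + (1 - ‖u‖ ^ 2) * ‖v‖ := by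
    refine (norm_add_le _ _).trans (le_of_eq ?_)
    rw [norm_mul, norm_mul, Complex.norm_real, Complex.norm_real, Real.norm_eq_abs,
      Real.norm_eq_abs, abs_of_nonneg h1, abs_of_nonneg h2]
  refine h3.trans ?_
  rw [hBn]
  nlinarith [mul_nonneg (sub_nonneg.2 hu1) (sub_nonneg.2 hv1), norm_nonneg u, norm_nonneg v,
    mul_nonneg (mul_nonneg (sub_nonneg.2 hu1) (sub_nonneg.2 hv1))
      (sub_nonneg.2 (mul_le_one₀ hu1 (norm_nonneg v) hv1))]

/-- the necessary conditions, for a real nonnegative last coefficient -/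
theorem nec (a : ℂ) (b : ℝ) (hb : 0 ≤ b)
    (h : Set.InjOn (fun z : ℂ => z + a * z ^ 2 + (b : ℂ) * z ^ 3) (Metric.ball 0 1)) :
    b ≤ 1 / 3 ∧ |a.re| ≤ (1 + b) / Real.sqrt 2 ∧ |a.im| ≤ (1 - 3 * b) / 2 := by
  have hco := Pool.Agent.K7.H90.UPCOEF.t Pool.Agent.K7.H13.UPQUA.t a b h
  have hbn : ‖(b : ℂ)‖ = b := by rw [Complex.norm_real, Real.norm_eq_abs, abs_of_nonneg hb]
  rw [hbn] at hco
  have hb3 : b ≤ 1 / 3 := hco.1
  refine ⟨hb3, ?_, ?_⟩
  · have h1 := (Pool.Agent.K7.H13.UPQUA.t _ _ (fun z hz =>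
      Pool.Agent.K7.H90.UPCOEF.key a b h (1 / 2) (by norm_num) (by norm_num) z hz)).2
    have e1 : ‖((4 * (1 / 2) - 1 : ℝ) : ℂ) * (b : ℂ)‖ = b := by
      rw [norm_mul, Complex.norm_real, hbn]; norm_num
    have e2 : ‖2 * (Real.sqrt (1 / 2) : ℂ) * a‖ = 2 * Real.sqrt (1 / 2) * ‖a‖ := by
      rw [norm_mul, norm_mul, Complex.norm_real, Real.norm_eq_abs,
        abs_of_nonneg (Real.sqrt_nonneg _)]
      simp
    rw [e1, e2] at h1
    have h3 : Real.sqrt (1 / 2) * Real.sqrt 2 = 1 := by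
      rw [← Real.sqrt_mul (by norm_num)]; norm_num
    have h4 : 0 < Real.sqrt 2 := by positivity
    have h5 : Real.sqrt 2 ^ 2 = 2 := Real.sq_sqrt (by norm_num)
    rw [le_div_iff₀ h4]
    have h6 : 2 * Real.sqrt (1 / 2) = Real.sqrt 2 := by
      have : Real.sqrt (1 / 2) * Real.sqrt 2 * Real.sqrt 2 = Real.sqrt 2 := by rw [h3, one_mul]
      nlinarith
    rw [h6] at h1
    have h7 : |a.re| ≤ ‖a‖ := Complex.abs_re_le_norm a
    nlinarith
  · -- the limit `c → 1`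
    have hs : ∀ s ∈ Set.Ioo (1 / 2 : ℝ) 1, 2 * s * |a.im| ≤ 1 - (4 * s ^ 2 - 1) * b := by
      intro s hs
      have hs0 : 0 < s := by linarith [hs.1]
      have hs1 : s ^ 2 < 1 := by nlinarith [hs.2]
      have h1 := qua2 _ _ (fun z hz =>
        Pool.Agent.K7.H90.UPCOEF.key a b h (s ^ 2) (by positivity) hs1 z hz)
      rw [Real.sqrt_sq hs0.le] at h1
      set B : ℝ := (4 * s ^ 2 - 1) * b with hB
      have hB0 : 0 ≤ B := mul_nonneg (by nlinarith [hs.1]) hb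
      have e1 : ((4 * s ^ 2 - 1 : ℝ) : ℂ) * (b : ℂ) = (B : ℂ) := by
        rw [hB]; push_cast; ring
      rw [e1, Complex.norm_real, Real.norm_eq_abs, sq_abs] at h1
      have h2 := (Complex.abs_im_le_norm _).trans h1
      have e2 : (2 * (s : ℂ) * a - (starRingEnd ℂ) (2 * (s : ℂ) * a) * (B : ℂ)).im =
          2 * s * a.im * (1 + B) := by
        simp [Complex.mul_im, Complex.mul_re]
        ring
      rw [e2, abs_mul, abs_mul, abs_of_nonneg (by linarith : 0 ≤ 1 + B),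
        abs_of_nonneg (by linarith : 0 ≤ 2 * s)] at h2
      have h3 : 2 * s * |a.im| * (1 + B) ≤ (1 - B) * (1 + B) := by nlinarith
      exact le_of_mul_le_mul_right h3 (by linarith)
    have hcl : IsClosed {s : ℝ | 2 * s * |a.im| ≤ 1 - (4 * s ^ 2 - 1) * b} := by
      apply isClosed_le <;> fun_prop
    have hsub := closure_minimal (fun s hs' => hs s hs' :
      Set.Ioo (1 / 2 : ℝ) 1 ⊆ {s : ℝ | 2 * s * |a.im| ≤ 1 - (4 * s ^ 2 - 1) * b}) hcl
    rw [closure_Ioo (by norm_num)] at hsub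
    have h1 := hsub (Set.right_mem_Icc.2 (by norm_num : (1 / 2 : ℝ) ≤ 1))
    have h2 : 2 * (1 : ℝ) * |a.im| ≤ 1 - (4 * 1 ^ 2 - 1) * b := h1
    linarith

/-- the decomposition -/
theorem decomp (a : ℂ) (b : ℝ) (hb : 0 ≤ b) (hb3 : b ≤ 1 / 3)
    (hx : |a.re| ≤ (1 + b) / Real.sqrt 2) (hy : |a.im| ≤ (1 - 3 * b) / 2) :
    ∃ (m : ℝ) (κ : ℂ), |m| ≤ 1 ∧ ‖κ‖ ≤ 9 / 10 ∧
      a = ((3 * b * m * (2 * Real.sqrt 2 / 3) : ℝ) : ℂ) + ((1 - 3 * b : ℝ) : ℂ) * κ := by
  set s : ℝ := Real.sqrt 2 with hs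
  have hs2 : s ^ 2 = 2 := Real.sq_sqrt (by norm_num)
  have hs0 : 0 < s := by positivity
  rw [le_div_iff₀ hs0] at hx
  by_cases hb1 : b = 1 / 3
  · -- then `im a = 0`
    have hi : a.im = 0 := by
      have : |a.im| ≤ 0 := by rw [hb1] at hy; linarith
      exact abs_nonpos_iff.1 this
    refine ⟨a.re * 3 / (2 * s), 0, ?_, by norm_num, ?_⟩
    · rw [abs_div, abs_mul, abs_of_pos (by positivity : 0 < 2 * s), div_le_one (by positivity)]
      rw [hb1] at hx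
      have : |(3 : ℝ)| = 3 := by norm_num
      rw [this]
      nlinarith [abs_nonneg a.re]
    · rw [hb1]
      have e3 : 3 * (1 / 3) * (a.re * 3 / (2 * s)) * (2 * s / 3) = a.re := by
        field_simp
      rw [e3, mul_zero, add_zero]
      apply Complex.ext
      · simp
      · simp [hi]
  have hε : 0 < 1 - 3 * b := by
    rcases lt_or_eq_of_le hb3 with h | h
    · linarith
    · exact absurd h hb1
  -- general statement
  have main : ∀ m : ℝ, |m| ≤ 1 →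
      (a.re - 2 * s * b * m) ^ 2 ≤ (1 - 3 * b) ^ 2 / 2 →
      ∃ (m : ℝ) (κ : ℂ), |m| ≤ 1 ∧ ‖κ‖ ≤ 9 / 10 ∧
      a = ((3 * b * m * (2 * s / 3) : ℝ) : ℂ) + ((1 - 3 * b : ℝ) : ℂ) * κ := by
    intro m hm hr
    refine ⟨m, (a - ((3 * b * m * (2 * s / 3) : ℝ) : ℂ)) / ((1 - 3 * b : ℝ) : ℂ), hm, ?_, ?_⟩
    · rw [norm_div, Complex.norm_real, Real.norm_eq_abs, abs_of_pos hε, div_le_iff₀ hε]
      apply le_of_sq_le_sq _ (by positivity)
      rw [← Complex.normSq_eq_norm_sq, Complex.normSq_apply]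
      have e1 : (a - ((3 * b * m * (2 * s / 3) : ℝ) : ℂ)).re = a.re - 2 * s * b * m := by
        rw [Complex.sub_re, Complex.ofReal_re]; ring
      have e2 : (a - ((3 * b * m * (2 * s / 3) : ℝ) : ℂ)).im = a.im := by
        rw [Complex.sub_im, Complex.ofReal_im]; ring
      rw [e1, e2]
      have h1 : a.im * a.im ≤ (1 - 3 * b) ^ 2 / 4 := by
        have := mul_self_le_mul_self (abs_nonneg a.im) hy
        rw [abs_mul_abs_self] at this
        linarith
      nlinarith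
    · have : ((1 - 3 * b : ℝ) : ℂ) ≠ 0 := by exact_mod_cast hε.ne'
      field_simp
      ring
  by_cases hc1 : 2 * s * b < a.re
  · apply main 1 (by simp)
    have h1 : 0 ≤ a.re - 2 * s * b * 1 := by linarith
    have h2 : (a.re - 2 * s * b * 1) * s ≤ 1 - 3 * b := by
      have := le_abs_self a.re
      nlinarith
    have h3 := mul_self_le_mul_self (mul_nonneg h1 hs0.le) h2
    nlinarith
  by_cases hc2 : a.re < -(2 * s * b)
  · apply main (-1) (by simp)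
    have h1 : 0 ≤ -(a.re - 2 * s * b * (-1)) := by linarith
    have h2 : (-(a.re - 2 * s * b * (-1))) * s ≤ 1 - 3 * b := by
      have := neg_abs_le a.re
      nlinarith
    have h3 := mul_self_le_mul_self (mul_nonneg h1 hs0.le) h2
    nlinarith
  · push Not at hc1 hc2
    rcases eq_or_lt_of_le hb with hb0 | hb0
    · apply main 0 (by simp)
      have : a.re = 0 := by
        rw [← hb0] at hc1 hc2
        linarith
      rw [this]
      nlinarith
    · apply main (a.re / (2 * s * b))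
      · rw [abs_div, abs_of_pos (by positivity : 0 < 2 * s * b), div_le_one (by positivity)]
        exact abs_le.2 ⟨hc2, hc1⟩
      · have : a.re - 2 * s * b * (a.re / (2 * s * b)) = 0 := by
          field_simp
          ring
        rw [this]
        have := sq_nonneg (1 - 3 * b)
        linarith

end Pool.Agent.K7.H11.UP
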