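import Pool.Agent.K7.H11.UP.CMP
import Pool.Agent.K7.H11.UP.NEC

/-!
# MP_d3fa2a_an: the maximal integral means for cubic polynomials, all `q ≥ 2`
-/

set_option autoImplicit false

namespace Pool.Agent.K7.H11.UP

open Pool.Agent.K7.H60.UP

/-- the integrand -/
noncomputable def F (q : ℝ) (a b : ℂ) (t : ℝ) : ℝ :=
  ‖1 + a * Complex.exp (t * Complex.I) + b * Complex.exp (t * Complex.I) ^ 2‖ ^ q

/-- the integral -/
noncomputable def J (q : ℝ) (a b : ℂ) : ℝ := ∫ t in (0 : ℝ)..(2 * Real.pi), F q a b t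

theorem F_cont (q : ℝ) (hq : 0 ≤ q) (a b : ℂ) : Continuous (F q a b) := by
  unfold F
  apply Continuous.rpow_const
  · fun_prop
  · intro t; exact Or.inr hq

theorem F_per (q : ℝ) (a b : ℂ) : Function.Periodic (F q a b) (2 * Real.pi) := by
  intro t
  unfold F
  have : Complex.exp (((t + 2 * Real.pi : ℝ) : ℂ) * Complex.I) = Complex.exp (t * Complex.I) := by
    push_cast
    rw [add_mul, Complex.exp_add, Complex.exp_two_pi_mul_I, mul_one]
  rw [this]

theorem J_rot (q φ : ℝ) (a b : ℂ) :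
    J q (a * Complex.exp (φ * Complex.I)) (b * Complex.exp (φ * Complex.I) ^ 2) = J q a b := by
  unfold J
  have h1 : ∀ t : ℝ, F q (a * Complex.exp (φ * Complex.I)) (b * Complex.exp (φ * Complex.I) ^ 2) t =
      F q a b (t + φ) := by
    intro t
    unfold F
    have : Complex.exp (((t + φ : ℝ) : ℂ) * Complex.I) =
        Complex.exp (t * Complex.I) * Complex.exp (φ * Complex.I) := by
      push_cast
      rw [add_mul, Complex.exp_add]
    rw [this]
    ring_nf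
  simp_rw [h1]
  rw [intervalIntegral.integral_comp_add_right]
  have h2 := (F_per q a b).intervalIntegral_add_eq φ 0
  rw [zero_add] at h2
  rw [← h2, zero_add, add_comm]

/-- convexity -/
theorem J_mix (q : ℝ) (hq : 1 ≤ q) (l : ℝ) (h0 : 0 ≤ l) (h1 : l ≤ 1) (a₁ b₁ a₂ b₂ : ℂ) :
    J q ((l : ℂ) * a₁ + ((1 - l : ℝ) : ℂ) * a₂) ((l : ℂ) * b₁ + ((1 - l : ℝ) : ℂ) * b₂) ≤
      l * J q a₁ b₁ + (1 - l) * J q a₂ b₂ := by
  unfold J
  rw [← intervalIntegral.integral_const_mul, ← intervalIntegral.integral_const_mul,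
    ← intervalIntegral.integral_add]
  · apply intervalIntegral.integral_mono_on (by positivity)
    · exact (F_cont q (by linarith) _ _).intervalIntegrable _ _
    · exact (((F_cont q (by linarith) _ _).const_mul _).add
        ((F_cont q (by linarith) _ _).const_mul _)).intervalIntegrable _ _
    · intro t _
      unfold F
      set e := Complex.exp (t * Complex.I) with he
      have e1 : 1 + ((l : ℂ) * a₁ + ((1 - l : ℝ) : ℂ) * a₂) * e +
          ((l : ℂ) * b₁ + ((1 - l : ℝ) : ℂ) * b₂) * e ^ 2 =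
          (l : ℂ) * (1 + a₁ * e + b₁ * e ^ 2) + ((1 - l : ℝ) : ℂ) * (1 + a₂ * e + b₂ * e ^ 2) := by
        push_cast; ring
      rw [e1]
      have h2 : ‖(l : ℂ) * (1 + a₁ * e + b₁ * e ^ 2) + ((1 - l : ℝ) : ℂ) * (1 + a₂ * e + b₂ * e ^ 2)‖ ≤
          l * ‖1 + a₁ * e + b₁ * e ^ 2‖ + (1 - l) * ‖1 + a₂ * e + b₂ * e ^ 2‖ := by
        refine (norm_add_le _ _).trans (le_of_eq ?_)
        rw [norm_mul, norm_mul, Complex.norm_real, Complex.norm_real, Real.norm_eq_abs,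
          Real.norm_eq_abs, abs_of_nonneg h0, abs_of_nonneg (by linarith : 0 ≤ 1 - l)]
      refine (Real.rpow_le_rpow (norm_nonneg _) h2 (by linarith)).trans ?_
      have h3 := (convexOn_rpow hq).2 (Set.mem_Ici.2 (norm_nonneg (1 + a₁ * e + b₁ * e ^ 2)))
        (Set.mem_Ici.2 (norm_nonneg (1 + a₂ * e + b₂ * e ^ 2))) h0 (by linarith : 0 ≤ 1 - l)
        (by ring)
      simpa using h3
  · exact ((F_cont q (by linarith) _ _).const_mul _).intervalIntegrable _ _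
  · exact ((F_cont q (by linarith) _ _).const_mul _).intervalIntegrable _ _

theorem expI (t : ℝ) : Complex.exp (t * Complex.I) = (Real.cos t : ℂ) + (Real.sin t : ℂ) * Complex.I := by
  rw [Complex.exp_mul_I, Complex.ofReal_cos, Complex.ofReal_sin]

/-- powers of the modulus -/
theorem rp (q x y : ℝ) (hx : 0 ≤ x) (h : x ^ 2 = y) : x ^ q = y ^ (q / 2) := by
  rw [← h, ← Real.rpow_natCast x 2, ← Real.rpow_mul hx]
  congr 1
  push_cast
  ring

theorem J_lin (q κ : ℝ) : J q (κ : ℂ) 0 =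
    ∫ t in (0 : ℝ)..(2 * Real.pi), (1 + κ ^ 2 + 2 * κ * Real.cos t) ^ (q / 2) := by
  unfold J F
  congr 1
  funext t
  apply rp q _ _ (norm_nonneg _)
  rw [expI, ← Complex.normSq_eq_norm_sq, Complex.normSq_apply]
  simp only [Complex.add_re, Complex.add_im, Complex.mul_re, Complex.mul_im, Complex.one_re,
    Complex.one_im, Complex.ofReal_re, Complex.ofReal_im, Complex.I_re, Complex.I_im,
    Complex.zero_re, Complex.zero_im, zero_mul]
  nlinarith [Real.sin_sq_add_cos_sq t]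

theorem J_ext (q : ℝ) : J q ((2 * Real.sqrt 2 / 3 : ℝ) : ℂ) ((1 / 3 : ℝ) : ℂ) =
    ∫ t in (0 : ℝ)..(2 * Real.pi),
      (2 + 16 * Real.sqrt 2 / 9 * Real.cos t + 2 / 3 * Real.cos (2 * t)) ^ (q / 2) := by
  unfold J F
  congr 1
  funext t
  apply rp q _ _ (norm_nonneg _)
  have h2 : Real.sqrt 2 ^ 2 = 2 := Real.sq_sqrt (by norm_num)
  have h1 := Real.sin_sq_add_cos_sq t
  rw [expI, ← Complex.normSq_eq_norm_sq, Complex.normSq_apply, pow_two ((Real.cos t : ℂ) + _)]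
  simp only [Complex.add_re, Complex.add_im, Complex.mul_re, Complex.mul_im, Complex.one_re,
    Complex.one_im, Complex.ofReal_re, Complex.ofReal_im, Complex.I_re, Complex.I_im]
  rw [Real.cos_two_mul]
  have hs : Real.sin t ^ 2 = 1 - Real.cos t ^ 2 := by linarith
  ring_nf
  simp only [hs, h2, show Real.sin t ^ 4 = (1 - Real.cos t ^ 2) ^ 2 by rw [← hs]; ring]
  ring_nf

/-- comparison with the linear polynomials -/
theorem J_cmp (q : ℝ) (hq : 2 ≤ q) (κ : ℂ) (hκ : ‖κ‖ ≤ 9 / 10) :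
    J q κ 0 ≤ J q ((2 * Real.sqrt 2 / 3 : ℝ) : ℂ) ((1 / 3 : ℝ) : ℂ) := by
  have h1 := J_rot q (Complex.arg κ) (‖κ‖ : ℂ) 0
  rw [Complex.norm_mul_exp_arg_mul_I, zero_mul] at h1
  rw [h1, J_lin, J_ext]
  exact cmp (q / 2) ‖κ‖ (by linarith) (norm_nonneg _) hκ

theorem J_neg (q : ℝ) (a b : ℂ) : J q (-a) b = J q a b := by
  have h1 := J_rot q Real.pi a b
  rw [Complex.exp_pi_mul_I] at h1
  simpa using h1

/-- the bound, for a real nonnegative last coefficient -/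
theorem real_bound (q : ℝ) (hq : 2 ≤ q) (a : ℂ) (b : ℝ) (hb : 0 ≤ b)
    (h : Set.InjOn (fun z : ℂ => z + a * z ^ 2 + (b : ℂ) * z ^ 3) (Metric.ball 0 1)) :
    J q a b ≤ J q ((2 * Real.sqrt 2 / 3 : ℝ) : ℂ) ((1 / 3 : ℝ) : ℂ) := by
  obtain ⟨hb3, hx, hy⟩ := nec a b hb h
  obtain ⟨m, κ, hm, hκ, ha⟩ := decomp a b hb hb3 hx hy
  have hm' := abs_le.1 hm
  set A : ℂ := ((2 * Real.sqrt 2 / 3 : ℝ) : ℂ) with hA
  have hmid : J q ((m : ℂ) * A) ((1 / 3 : ℝ) : ℂ) ≤ J q A ((1 / 3 : ℝ) : ℂ) := by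
    have h1 := J_mix q (by linarith) ((1 + m) / 2) (by linarith) (by linarith)
      A ((1 / 3 : ℝ) : ℂ) (-A) ((1 / 3 : ℝ) : ℂ)
    rw [J_neg] at h1
    have e1 : (((1 + m) / 2 : ℝ) : ℂ) * A + ((1 - (1 + m) / 2 : ℝ) : ℂ) * -A = (m : ℂ) * A := by
      push_cast; ring
    have e2 : (((1 + m) / 2 : ℝ) : ℂ) * ((1 / 3 : ℝ) : ℂ) +
        ((1 - (1 + m) / 2 : ℝ) : ℂ) * ((1 / 3 : ℝ) : ℂ) = ((1 / 3 : ℝ) : ℂ) := by
      push_cast; ring
    rw [e1, e2] at h1
    linarith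
  have h1 := J_mix q (by linarith) (3 * b) (by linarith) (by linarith)
    ((m : ℂ) * A) ((1 / 3 : ℝ) : ℂ) κ 0
  have e1 : ((3 * b : ℝ) : ℂ) * ((m : ℂ) * A) + ((1 - 3 * b : ℝ) : ℂ) * κ = a := by
    rw [ha, hA]; push_cast; ring
  have e2 : ((3 * b : ℝ) : ℂ) * ((1 / 3 : ℝ) : ℂ) + ((1 - 3 * b : ℝ) : ℂ) * 0 = (b : ℂ) := by
    push_cast; ring
  rw [e1, e2] at h1
  have h2 := J_cmp q hq κ hκ
  rw [← hA] at h2
  have h3 : 0 ≤ 1 - 3 * b := by linarith
  have h4 := mul_le_mul_of_nonneg_left hmid (by linarith : 0 ≤ 3 * b)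
  have h5 := mul_le_mul_of_nonneg_left h2 h3
  linarith

/-- the bound -/
theorem ge2 (q : ℝ) (hq : 2 ≤ q) (a b : ℂ)
    (h : Set.InjOn (fun z : ℂ => z + a * z ^ 2 + b * z ^ 3) (Metric.ball 0 1)) :
    ∫ t in (0 : ℝ)..(2 * Real.pi),
      ‖1 + a * Complex.exp (t * Complex.I) + b * Complex.exp (t * Complex.I) ^ 2‖ ^ q ≤
    ∫ t in (0 : ℝ)..(2 * Real.pi),
      (2 + 16 * Real.sqrt 2 / 9 * Real.cos t + 2 / 3 * Real.cos (2 * t)) ^ (q / 2) := by
  rw [← J_ext]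
  change J q a b ≤ _
  set φ : ℝ := -(Complex.arg b) / 2 with hφ
  set u : ℂ := Complex.exp (φ * Complex.I) with hu
  have hun : ‖u‖ = 1 := by rw [hu]; exact Complex.norm_exp_ofReal_mul_I φ
  have hu0 : u ≠ 0 := by rw [hu]; exact Complex.exp_ne_zero _
  have hbu : b * u ^ 2 = ((‖b‖ : ℝ) : ℂ) := by
    have e1 : u ^ 2 = Complex.exp (-(Complex.arg b * Complex.I)) := by
      rw [hu, ← Complex.exp_nat_mul, hφ]
      congr 1
      push_cast
      ring
    rw [e1]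
    calc b * Complex.exp (-(Complex.arg b * Complex.I))
        = (‖b‖ * Complex.exp (Complex.arg b * Complex.I)) *
            Complex.exp (-(Complex.arg b * Complex.I)) := by
          rw [Complex.norm_mul_exp_arg_mul_I]
      _ = ((‖b‖ : ℝ) : ℂ) := by
          rw [mul_assoc, ← Complex.exp_add, add_neg_cancel, Complex.exp_zero, mul_one]
  have h1 := J_rot q φ a b
  rw [← hu, hbu] at h1
  rw [← h1]
  apply real_bound q hq _ _ (norm_nonneg b)
  rw [← hbu]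
  intro z hz w hw hzw
  have hz' : u * z ∈ Metric.ball (0 : ℂ) 1 := by
    rw [mem_ball_zero_iff] at hz ⊢
    rw [norm_mul, hun, one_mul]; exact hz
  have hw' : u * w ∈ Metric.ball (0 : ℂ) 1 := by
    rw [mem_ball_zero_iff] at hw ⊢
    rw [norm_mul, hun, one_mul]; exact hw
  have h2 := h hz' hw' (by
    simp only at hzw ⊢
    linear_combination u * hzw)
  exact mul_left_cancel₀ hu0 h2

end Pool.Agent.K7.H11.UP
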