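import Pool.Agent.K7.H11.UP.LOW

/-!
# MP_d3fa2a_an: linear polynomials, all `0 < q ≤ 2`
-/

set_option autoImplicit false

namespace Pool.Agent.K7.H11.UP

open Metric

/-- the basic function -/
noncomputable def hh (r t : ℝ) : ℝ := 1 + r ^ 2 + 2 * r * Real.cos t

theorem hh_low (r t : ℝ) (h0 : 0 ≤ r) : (1 - r) ^ 2 ≤ hh r t := by
  unfold hh
  nlinarith [mul_nonneg h0 (by linarith [Real.neg_one_le_cos t] : 0 ≤ 1 + Real.cos t)]

theorem hh_pos (r t : ℝ) (h0 : 0 ≤ r) (h1 : r < 1) : 0 < hh r t :=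
  lt_of_lt_of_le (by have : 0 < 1 - r := by linarith
                     positivity) (hh_low r t h0)

theorem hh_cont (r : ℝ) : Continuous (hh r) := by unfold hh; fun_prop

theorem hh_rpow_cont (r p : ℝ) (h0 : 0 ≤ r) (h1 : r < 1) : Continuous (fun t => hh r t ^ p) :=
  (hh_cont r).rpow_const (fun t => Or.inl (hh_pos r t h0 h1).ne')

theorem ident (r : ℝ) (h0 : 0 ≤ r) (h1 : r < 1) :
    ∫ t in (0 : ℝ)..(2 * Real.pi), (r + Real.cos t) / hh r t = 0 := by
  set U : Set ℂ := {z | 1 + (r : ℂ) * z ≠ 0} with hU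
  have hc : closedBall (0 : ℂ) 1 ⊆ U := by
    intro z hz hz0
    rw [mem_closedBall_zero_iff] at hz
    have h2 : (r : ℂ) * z = -1 := by linear_combination hz0
    have h3 : ‖(r : ℂ) * z‖ = 1 := by rw [h2]; simp
    rw [norm_mul, Complex.norm_real, Real.norm_eq_abs, abs_of_nonneg h0] at h3
    nlinarith [norm_nonneg z]
  have hG : DifferentiableOn ℂ (fun z : ℂ => z / (1 + (r : ℂ) * z)) U := by
    intro z hz
    apply DifferentiableAt.differentiableWithinAt
    exact differentiableAt_id.div (by fun_prop) hz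
  have hm := mean0 U hc _ hG
  simp only [mul_zero, zero_div] at hm
  have hcont : Continuous (fun t : ℝ => Complex.exp (t * Complex.I) /
      (1 + (r : ℂ) * Complex.exp (t * Complex.I))) := by
    apply Continuous.div (by fun_prop) (by fun_prop)
    intro t
    exact hc (by rw [mem_closedBall_zero_iff, Complex.norm_exp_ofReal_mul_I])
  have hre := Complex.reCLM.intervalIntegral_comp_comm
    (hcont.intervalIntegrable (μ := MeasureTheory.volume) 0 (2 * Real.pi))
  rw [hm] at hre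
  simp only [Complex.reCLM_apply, Complex.zero_re] at hre
  rw [← hre]
  congr 1
  funext t
  rw [Complex.div_re, expI, Complex.normSq_apply]
  simp only [Complex.add_re, Complex.add_im, Complex.mul_re, Complex.mul_im, Complex.one_re,
    Complex.one_im, Complex.ofReal_re, Complex.ofReal_im, Complex.I_re, Complex.I_im]
  have e1 : (1 + (r * (Real.cos t + (Real.sin t * 0 - 0 * 1)) - 0 * (0 + (Real.sin t * 1 + 0 * 0)))) *
      (1 + (r * (Real.cos t + (Real.sin t * 0 - 0 * 1)) - 0 * (0 + (Real.sin t * 1 + 0 * 0)))) +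
      (0 + (r * (0 + (Real.sin t * 1 + 0 * 0)) + 0 * (Real.cos t + (Real.sin t * 0 - 0 * 1)))) *
      (0 + (r * (0 + (Real.sin t * 1 + 0 * 0)) + 0 * (Real.cos t + (Real.sin t * 0 - 0 * 1)))) =
      hh r t := by
    unfold hh
    linear_combination r ^ 2 * Real.sin_sq_add_cos_sq t
  rw [e1, ← add_div]
  congr 1
  linear_combination (-r) * Real.sin_sq_add_cos_sq t

theorem pos_int (p r : ℝ) (hp : 0 ≤ p) (h0 : 0 ≤ r) (h1 : r < 1) :
    0 ≤ ∫ t in (0 : ℝ)..(2 * Real.pi), hh r t ^ (p - 1) * (r + Real.cos t) := by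
  have hb : 0 < 1 - r ^ 2 := by nlinarith
  have e : ∫ t in (0 : ℝ)..(2 * Real.pi), (1 - r ^ 2) ^ p * ((r + Real.cos t) / hh r t) = 0 := by
    rw [intervalIntegral.integral_const_mul, ident r h0 h1, mul_zero]
  refine e.symm.le.trans ?_
  apply intervalIntegral.integral_mono_on (by positivity)
  · apply Continuous.intervalIntegrable
    apply continuous_const.mul
    exact Continuous.div (by fun_prop) (hh_cont r) (fun t => (hh_pos r t h0 h1).ne')
  · apply Continuous.intervalIntegrable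
    exact (hh_rpow_cont r (p - 1) h0 h1).mul (by fun_prop)
  · intro t _
    have hpos := hh_pos r t h0 h1
    rw [Real.rpow_sub_one hpos.ne']
    have e2 : hh r t ^ p / hh r t * (r + Real.cos t) - (1 - r ^ 2) ^ p * ((r + Real.cos t) / hh r t) =
        (hh r t ^ p - (1 - r ^ 2) ^ p) * (r + Real.cos t) / hh r t := by ring
    have e3 : 0 ≤ (hh r t ^ p - (1 - r ^ 2) ^ p) * (r + Real.cos t) / hh r t := by
      apply div_nonneg _ hpos.le
      have e4 : hh r t = (1 - r ^ 2) + 2 * r * (r + Real.cos t) := by unfold hh; ring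
      rcases le_total 0 (r + Real.cos t) with hs | hs
      · have : (1 - r ^ 2) ^ p ≤ hh r t ^ p :=
          Real.rpow_le_rpow hb.le (by rw [e4]; have := mul_nonneg h0 hs; linarith) hp
        exact mul_nonneg (by linarith) hs
      · have : hh r t ^ p ≤ (1 - r ^ 2) ^ p :=
          Real.rpow_le_rpow hpos.le (by rw [e4]; have := mul_nonneg h0 (neg_nonneg.2 hs); linarith) hp
        exact mul_nonneg_of_nonpos_of_nonpos (by linarith) hs
    linarith

theorem step (p r s : ℝ) (hp : 0 ≤ p) (hp1 : p ≤ 1) (h0 : 0 ≤ r) (hrs : r ≤ s) (hs : s ≤ 1 / 2) :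
    ∫ t in (0 : ℝ)..(2 * Real.pi), hh r t ^ p ≤
      (∫ t in (0 : ℝ)..(2 * Real.pi), hh s t ^ p) + 8 * Real.pi * (s - r) ^ 2 := by
  have hs0 : 0 ≤ s := h0.trans hrs
  have c1 := hh_rpow_cont s p hs0 (by linarith)
  have c2 := hh_rpow_cont s (p - 1) hs0 (by linarith)
  have hpt : ∀ t : ℝ, hh r t ^ p ≤ hh s t ^ p - (2 * p * (s - r)) * (hh s t ^ (p - 1) * (s + Real.cos t)) +
      4 * (s - r) ^ 2 := by
    intro t
    have p1 := hh_pos r t h0 (by linarith)
    have p2 := hh_pos s t hs0 (by linarith)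
    have h1 : -1 ≤ hh r t / hh s t - 1 := by
      have : 0 ≤ hh r t / hh s t := by positivity
      linarith
    have h2 := rpow_one_add_le_one_add_mul_self h1 hp hp1
    have h3 : 1 + (hh r t / hh s t - 1) = hh r t / hh s t := by ring
    rw [h3, Real.div_rpow p1.le p2.le, div_le_iff₀ (Real.rpow_pos_of_pos p2 p)] at h2
    have h5 : hh s t ^ (p - 1) = hh s t ^ p / hh s t := by rw [Real.rpow_sub_one p2.ne']
    have h6 : (1 + p * (hh r t / hh s t - 1)) * hh s t ^ p =
        hh s t ^ p + p * hh s t ^ (p - 1) * (hh r t - hh s t) := by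
      rw [h5]
      have := p2.ne'
      field_simp
    rw [h6] at h2
    have h7 : hh r t - hh s t = -(s - r) * (2 * (s + Real.cos t) - (s - r)) := by
      unfold hh; ring
    rw [h7] at h2
    have h8 : hh s t ^ (p - 1) ≤ 4 := by
      have h9 : (1 / 4 : ℝ) ≤ hh s t := by
        have := hh_low s t hs0
        nlinarith
      have h10 : hh s t ^ (p - 1) ≤ (1 / 4 : ℝ) ^ (p - 1) :=
        Real.rpow_le_rpow_of_nonpos (by norm_num) h9 (by linarith)
      have h11 : (1 / 4 : ℝ) ^ (p - 1) ≤ (1 / 4 : ℝ) ^ (-1 : ℝ) :=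
        Real.rpow_le_rpow_of_exponent_ge (by norm_num) (by norm_num) (by linarith)
      have h12 : (1 / 4 : ℝ) ^ (-1 : ℝ) = 4 := by
        rw [Real.rpow_neg_one]; norm_num
      linarith
    have h13 : 0 ≤ hh s t ^ (p - 1) := (Real.rpow_pos_of_pos p2 _).le
    have h14 : p * hh s t ^ (p - 1) ≤ 4 := by nlinarith
    have h15 := mul_le_mul_of_nonneg_right h14 (sq_nonneg (s - r))
    nlinarith
  have c3 : Continuous (fun t : ℝ => hh s t ^ p -
      (2 * p * (s - r)) * (hh s t ^ (p - 1) * (s + Real.cos t)) + 4 * (s - r) ^ 2) :=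
    (c1.sub (continuous_const.mul (c2.mul (by fun_prop : Continuous (fun t : ℝ => s + Real.cos t))))).add
      continuous_const
  have hle : ∫ t in (0 : ℝ)..(2 * Real.pi), hh r t ^ p ≤ ∫ t in (0 : ℝ)..(2 * Real.pi),
      (hh s t ^ p - (2 * p * (s - r)) * (hh s t ^ (p - 1) * (s + Real.cos t)) + 4 * (s - r) ^ 2) :=
    intervalIntegral.integral_mono_on (μ := MeasureTheory.volume)
    (by positivity : (0 : ℝ) ≤ 2 * Real.pi)
    ((hh_rpow_cont r p h0 (by linarith)).intervalIntegrable _ _)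
    (c3.intervalIntegrable _ _)
    (fun t _ => hpt t)
  rw [intervalIntegral.integral_add, intervalIntegral.integral_sub,
    intervalIntegral.integral_const_mul, intervalIntegral.integral_const] at hle
  · have h1 := pos_int p s hp hs0 (by linarith)
    have h2 := mul_nonneg (mul_nonneg (mul_nonneg zero_le_two hp) (by linarith : 0 ≤ s - r)) h1
    simp only [sub_zero, smul_eq_mul] at hle
    linarith
  · exact c1.intervalIntegrable _ _
  · exact (continuous_const.mul (c2.mul (by fun_prop : Continuous (fun t : ℝ => s + Real.cos t)))).intervalIntegrable _ _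
  · exact (c1.sub (continuous_const.mul (c2.mul (by fun_prop : Continuous (fun t : ℝ => s + Real.cos t))))).intervalIntegrable _ _
  · exact continuous_const.intervalIntegrable _ _

theorem mono (p r s : ℝ) (hp : 0 ≤ p) (hp1 : p ≤ 1) (h0 : 0 ≤ r) (hrs : r ≤ s) (hs : s ≤ 1 / 2) :
    ∫ t in (0 : ℝ)..(2 * Real.pi), hh r t ^ p ≤ ∫ t in (0 : ℝ)..(2 * Real.pi), hh s t ^ p := by
  have main : ∀ N : ℕ, 0 < N → ∫ t in (0 : ℝ)..(2 * Real.pi), hh r t ^ p ≤
      (∫ t in (0 : ℝ)..(2 * Real.pi), hh s t ^ p) + 8 * Real.pi * (s - r) ^ 2 / N := by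
    intro N hN
    have hN' : (0 : ℝ) < N := by exact_mod_cast hN
    have ind : ∀ i : ℕ, i ≤ N → ∫ t in (0 : ℝ)..(2 * Real.pi), hh r t ^ p ≤
        (∫ t in (0 : ℝ)..(2 * Real.pi), hh (r + (s - r) * (i / N)) t ^ p) +
          i * (8 * Real.pi * ((s - r) / N) ^ 2) := by
      intro i
      induction i with
      | zero => intro _; simp
      | succ i ih =>
        intro hi
        have h1 := ih (by omega)
        have hi' : ((i : ℝ) + 1) ≤ N := by exact_mod_cast hi
        have hi1 : ((i : ℝ) + 1) / N ≤ 1 := by rw [div_le_one hN']; exact hi'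
        have hi2 : (i : ℝ) / N ≤ ((i : ℝ) + 1) / N := by
          apply div_le_div_of_nonneg_right _ hN'.le; linarith
        have hi3 : 0 ≤ (i : ℝ) / N := by positivity
        have h2 := step p (r + (s - r) * (i / N)) (r + (s - r) * ((i + 1) / N)) hp hp1
          (by nlinarith) (by nlinarith) (by nlinarith)
        have e1 : r + (s - r) * (((i : ℝ) + 1) / N) - (r + (s - r) * (i / N)) = (s - r) / N := by
          field_simp
          ring
        rw [e1] at h2
        push_cast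
        linarith
    have h1 := ind N le_rfl
    rw [div_self hN'.ne', mul_one, add_sub_cancel] at h1
    have e2 : (N : ℝ) * (8 * Real.pi * ((s - r) / N) ^ 2) = 8 * Real.pi * (s - r) ^ 2 / N := by
      field_simp
    rw [e2] at h1
    exact h1
  apply le_of_forall_pos_le_add
  intro ε hε
  obtain ⟨N, hN⟩ := exists_nat_gt (8 * Real.pi * (s - r) ^ 2 / ε)
  have hN0 : (0 : ℝ) < N := lt_of_le_of_lt (by positivity) hN
  have h1 := main N (by exact_mod_cast hN0)
  have h2 : 8 * Real.pi * (s - r) ^ 2 / N ≤ ε := by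
    rw [div_le_iff₀ hN0]
    rw [div_lt_iff₀ hε] at hN
    linarith
  linarith

/-- polynomials of degree two: all `0 < q ≤ 2` -/
theorem two (q : ℝ) (hq : 0 < q) (hq2 : q ≤ 2) (a : ℂ) (ha : ‖a‖ ≤ 1 / 2) :
    ∫ t in (0 : ℝ)..(2 * Real.pi), ‖1 + a * Complex.exp (t * Complex.I)‖ ^ q ≤
      ∫ t in (0 : ℝ)..(2 * Real.pi), (5 / 4 + Real.cos t) ^ (q / 2) := by
  have e1 : ∫ t in (0 : ℝ)..(2 * Real.pi), ‖1 + a * Complex.exp (t * Complex.I)‖ ^ q = J q a 0 := by
    unfold J F
    simp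
  have h1 := J_rot q (Complex.arg a) (‖a‖ : ℂ) 0
  rw [Complex.norm_mul_exp_arg_mul_I, zero_mul] at h1
  rw [e1, h1, J_lin]
  have h2 := mono (q / 2) ‖a‖ (1 / 2) (by linarith) (by linarith) (norm_nonneg _) ha le_rfl
  unfold hh at h2
  refine h2.trans (le_of_eq ?_)
  congr 1
  funext t
  congr 1
  ring

/-- polynomials of degree two: all `q > 0` -/
theorem twoAll (q : ℝ) (hq : 0 < q) (a : ℂ) (ha : ‖a‖ ≤ 1 / 2) :
    ∫ t in (0 : ℝ)..(2 * Real.pi), ‖1 + a * Complex.exp (t * Complex.I)‖ ^ q ≤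
      ∫ t in (0 : ℝ)..(2 * Real.pi), (5 / 4 + Real.cos t) ^ (q / 2) := by
  rcases le_total q 2 with hq2 | hq2
  · exact two q hq hq2 a ha
  have e1 : ∫ t in (0 : ℝ)..(2 * Real.pi), ‖1 + a * Complex.exp (t * Complex.I)‖ ^ q = J q a 0 := by
    unfold J F
    simp
  have h1 := J_rot q (Complex.arg a) (‖a‖ : ℂ) 0
  rw [Complex.norm_mul_exp_arg_mul_I, zero_mul] at h1
  rw [e1, h1]
  have h2 := J_mix q (by linarith) ((1 + ‖a‖ * 2) / 2)
    (by have := norm_nonneg a; positivity) (by linarith)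
    ((1 / 2 : ℝ) : ℂ) 0 (-((1 / 2 : ℝ) : ℂ)) 0
  rw [J_neg] at h2
  have e2 : (((1 + ‖a‖ * 2) / 2 : ℝ) : ℂ) * ((1 / 2 : ℝ) : ℂ) +
      ((1 - (1 + ‖a‖ * 2) / 2 : ℝ) : ℂ) * -((1 / 2 : ℝ) : ℂ) = (‖a‖ : ℂ) := by
    push_cast; ring
  rw [e2, mul_zero, mul_zero, add_zero] at h2
  have h3 : J q ((1 / 2 : ℝ) : ℂ) 0 = ∫ t in (0 : ℝ)..(2 * Real.pi), (5 / 4 + Real.cos t) ^ (q / 2) := by
    rw [J_lin]
    congr 1
    funext t
    congr 1
    ring
  rw [← h3]
  linarith

end Pool.Agent.K7.H11.UP
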