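import Pool.Agent.K7.H11.UP.GE2

/-!
# MP_d3fa2a_an: a lower bound of the integral means of the extremal polynomial
-/

set_option autoImplicit false

namespace Pool.Agent.K7.H11.UP

open Metric

theorem mean0 (U : Set ℂ) (hc : closedBall (0 : ℂ) 1 ⊆ U) (G : ℂ → ℂ)
    (hG : DifferentiableOn ℂ G U) :
    ∫ t in (0 : ℝ)..(2 * Real.pi), G (Complex.exp (t * Complex.I)) = 2 * Real.pi * G 0 := by
  have h1 := (hG.mono hc).circleIntegral_sub_inv_smul (w := 0) (mem_ball_self one_pos)
  simp only [circleIntegral, deriv_circleMap, circleMap_zero, sub_zero, smul_eq_mul,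
    Complex.ofReal_one, one_mul] at h1
  have h2 : ∀ θ : ℝ, Complex.exp (θ * Complex.I) * Complex.I *
      ((Complex.exp (θ * Complex.I))⁻¹ * G (Complex.exp (θ * Complex.I))) =
      Complex.I * G (Complex.exp (θ * Complex.I)) := by
    intro θ
    have := Complex.exp_ne_zero (θ * Complex.I)
    field_simp
  simp_rw [h2] at h1
  rw [intervalIntegral.integral_const_mul] at h1
  apply mul_left_cancel₀ Complex.I_ne_zero
  rw [h1]; ring

theorem mean1 (U : Set ℂ) (hU : IsOpen U) (hc : closedBall (0 : ℂ) 1 ⊆ U) (G : ℂ → ℂ)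
    (hG : DifferentiableOn ℂ G U) :
    ∫ t in (0 : ℝ)..(2 * Real.pi), Complex.exp (-(t * Complex.I)) * G (Complex.exp (t * Complex.I)) =
      2 * Real.pi * deriv G 0 := by
  have h1 := Complex.two_pi_I_inv_smul_circleIntegral_sub_sq_inv_smul_of_differentiable hU hc hG
    (mem_ball_self one_pos)
  simp only [circleIntegral, deriv_circleMap, circleMap_zero, sub_zero, smul_eq_mul,
    Complex.ofReal_one, one_mul] at h1
  have h2 : ∀ θ : ℝ, Complex.exp (θ * Complex.I) * Complex.I *
      ((Complex.exp (θ * Complex.I) ^ 2)⁻¹ * G (Complex.exp (θ * Complex.I))) =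
      Complex.I * (Complex.exp (-(θ * Complex.I)) * G (Complex.exp (θ * Complex.I))) := by
    intro θ
    have := Complex.exp_ne_zero (θ * Complex.I)
    rw [Complex.exp_neg]
    field_simp
  simp_rw [h2] at h1
  rw [intervalIntegral.integral_const_mul] at h1
  rw [← h1]
  have h3 : (2 * Real.pi * Complex.I : ℂ) ≠ 0 := by
    have := Real.pi_ne_zero
    have h4 : (Real.pi : ℂ) ≠ 0 := by exact_mod_cast this
    exact mul_ne_zero (mul_ne_zero two_ne_zero h4) Complex.I_ne_zero
  have h4 : (Real.pi : ℂ) ≠ 0 := by exact_mod_cast Real.pi_ne_zero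
  have h5 := Complex.I_ne_zero
  generalize (∫ t in (0 : ℝ)..(2 * Real.pi),
    Complex.exp (-(t * Complex.I)) * G (Complex.exp (t * Complex.I))) = S
  field_simp

theorem lower (q : ℝ) (hq : 0 < q) :
    2 * Real.pi * (1 + (q / 2) ^ 2 * (8 / 9)) ≤
      J q ((2 * Real.sqrt 2 / 3 : ℝ) : ℂ) ((1 / 3 : ℝ) : ℂ) := by
  set A : ℝ := 2 * Real.sqrt 2 / 3 with hA
  have hs2 : Real.sqrt 2 ^ 2 = 2 := Real.sq_sqrt (by norm_num)
  have hs0 : 0 ≤ Real.sqrt 2 := Real.sqrt_nonneg 2
  have hs1 : (1.4142 : ℝ) ≤ Real.sqrt 2 := by nlinarith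
  have hA2 : A ^ 2 = 8 / 9 := by rw [hA]; nlinarith
  have hA1 : 2 / 3 < A := by rw [hA]; linarith
  set f : ℂ → ℂ := fun z => 1 + (A : ℂ) * z + ((1 / 3 : ℝ) : ℂ) * z ^ 2 with hf
  have hfd : Differentiable ℂ f := by rw [hf]; fun_prop
  set U : Set ℂ := f ⁻¹' Complex.slitPlane with hU
  have hUo : IsOpen U := Complex.isOpen_slitPlane.preimage hfd.continuous
  have hc : closedBall (0 : ℂ) 1 ⊆ U := by
    intro z hz
    rw [mem_closedBall_zero_iff] at hz
    have hx := (Complex.abs_re_le_norm z).trans hz
    rw [abs_le] at hx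
    change f z ∈ Complex.slitPlane
    rw [Complex.mem_slitPlane_iff]
    by_cases hy : z.im = 0
    · left
      have e1 : (f z).re = 1 + A * z.re + 1 / 3 * z.re ^ 2 := by
        simp only [hf, Complex.add_re, Complex.mul_re, Complex.one_re, Complex.ofReal_re,
          Complex.ofReal_im, pow_two, hy]
        ring
      rw [e1]
      nlinarith [sq_nonneg (z.re + 3 * A / 2)]
    · right
      have e1 : (f z).im = z.im * (A + 2 / 3 * z.re) := by
        simp only [hf, Complex.add_im, Complex.mul_im, Complex.mul_re, Complex.one_im,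
          Complex.ofReal_re, Complex.ofReal_im, pow_two]
        ring
      rw [e1]
      apply mul_ne_zero hy
      have : 0 < A + 2 / 3 * z.re := by linarith [hx.1]
      exact this.ne'
  set p : ℝ := q / 2 with hp
  set G : ℂ → ℂ := fun z => (f z) ^ (p : ℂ) with hG
  have hGd : DifferentiableOn ℂ G U := by
    intro z hz
    exact (hfd.differentiableAt.cpow_const hz).differentiableWithinAt
  have hG0 : G 0 = 1 := by simp [hG, hf]
  have hG1 : deriv G 0 = ((p * A : ℝ) : ℂ) := by
    have h0 : f 0 = 1 := by simp [hf]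
    have h1 : HasDerivAt f (A : ℂ) 0 := by
      have h2 : HasDerivAt (fun z : ℂ => 1 + (A : ℂ) * z + ((1 / 3 : ℝ) : ℂ) * z ^ 2)
          ((A : ℂ) * 1 + ((1 / 3 : ℝ) : ℂ) * ((2 : ℕ) * (0 : ℂ) ^ (2 - 1) * 1)) 0 :=
        (((hasDerivAt_id (0 : ℂ)).const_mul (A : ℂ)).const_add 1).add
          (((hasDerivAt_id (0 : ℂ)).pow 2).const_mul _)
      convert h2 using 1
      simp
    have h3 := (h1.cpow_const (c := (p : ℂ)) (by rw [h0]; simp)).deriv
    rw [hG, h3, h0]
    simp
  set γ : ℝ := p * A with hγ
  have hm0 := mean0 U hc G hGd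
  have hm1 := mean1 U hUo hc G hGd
  rw [hG0, mul_one] at hm0
  rw [hG1] at hm1
  have hcont : Continuous (fun t : ℝ => G (Complex.exp (t * Complex.I))) := by
    apply ContinuousOn.comp_continuous (s := closedBall (0 : ℂ) 1)
      (hGd.continuousOn.mono hc) (by fun_prop)
    intro t
    rw [mem_closedBall_zero_iff, Complex.norm_exp_ofReal_mul_I]
  have hcont1 : Continuous (fun t : ℝ => (γ : ℂ) *
        (Complex.exp (-(t * Complex.I)) * G (Complex.exp (t * Complex.I)))) :=
    continuous_const.mul ((by fun_prop : Continuous (fun t : ℝ =>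
      Complex.exp (-(t * Complex.I)))).mul hcont)
  -- the complex integral
  have hint : ∫ t in (0 : ℝ)..(2 * Real.pi),
      (G (Complex.exp (t * Complex.I)) + (γ : ℂ) *
        (Complex.exp (-(t * Complex.I)) * G (Complex.exp (t * Complex.I)))) =
      ((2 * Real.pi * (1 + γ ^ 2) : ℝ) : ℂ) := by
    rw [intervalIntegral.integral_add, intervalIntegral.integral_const_mul, hm0, hm1]
    · push_cast; ring
    · exact hcont.intervalIntegrable _ _
    · exact hcont1.intervalIntegrable _ _
  have hcont2 : Continuous (fun t : ℝ => G (Complex.exp (t * Complex.I)) + (γ : ℂ) *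
        (Complex.exp (-(t * Complex.I)) * G (Complex.exp (t * Complex.I)))) :=
    hcont.add hcont1
  have hre := Complex.reCLM.intervalIntegral_comp_comm (hcont2.intervalIntegrable (μ := MeasureTheory.volume) 0 (2 * Real.pi))
  rw [hint] at hre
  simp only [Complex.reCLM_apply, Complex.ofReal_re] at hre
  -- pointwise inequality
  have hcos : ∫ t in (0 : ℝ)..(2 * Real.pi), (1 + γ ^ 2 + 2 * γ * Real.cos t) =
      2 * Real.pi * (1 + γ ^ 2) := by
    rw [intervalIntegral.integral_add, intervalIntegral.integral_const_mul, integral_cos]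
    · simp
      ring
    · exact continuous_const.intervalIntegrable _ _
    · apply Continuous.intervalIntegrable
      fun_prop
  have hle : ∫ t in (0 : ℝ)..(2 * Real.pi), (2 * (G (Complex.exp (t * Complex.I)) + (γ : ℂ) *
        (Complex.exp (-(t * Complex.I)) * G (Complex.exp (t * Complex.I)))).re -
        (1 + γ ^ 2 + 2 * γ * Real.cos t)) ≤ J q (A : ℂ) ((1 / 3 : ℝ) : ℂ) := by
    unfold J
    apply intervalIntegral.integral_mono_on (by positivity)
    · apply Continuous.intervalIntegrable
      have := Complex.continuous_re.comp hcont2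
      have h2 : Continuous (fun t : ℝ => (G (Complex.exp (t * Complex.I)) + (γ : ℂ) *
        (Complex.exp (-(t * Complex.I)) * G (Complex.exp (t * Complex.I)))).re) := this
      fun_prop
    · exact (F_cont q hq.le _ _).intervalIntegrable _ _
    · intro t _
      have h1 : F q (A : ℂ) ((1 / 3 : ℝ) : ℂ) t = ‖G (Complex.exp (t * Complex.I))‖ ^ 2 := by
        unfold F
        rw [hG]
        simp only
        rw [Complex.norm_cpow_real, ← Real.rpow_natCast, ← Real.rpow_mul (norm_nonneg _)]
        congr 1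
        rw [hp]; push_cast; ring
      rw [h1, ← Complex.normSq_eq_norm_sq, Complex.normSq_apply]
      have h2 : Complex.exp (-(t * Complex.I)) = (Real.cos t : ℂ) - (Real.sin t : ℂ) * Complex.I := by
        have := expI (-t)
        rw [Real.cos_neg, Real.sin_neg] at this
        push_cast at this
        rw [← neg_mul, this]
        push_cast
        ring
      rw [h2]
      simp only [Complex.add_re, Complex.mul_re, Complex.sub_re, Complex.sub_im, Complex.mul_im,
        Complex.ofReal_re, Complex.ofReal_im, Complex.I_re, Complex.I_im]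
      nlinarith [sq_nonneg ((G (Complex.exp (t * Complex.I))).re - 1 - γ * Real.cos t),
        sq_nonneg ((G (Complex.exp (t * Complex.I))).im - γ * Real.sin t),
        Real.sin_sq_add_cos_sq t, sq_nonneg γ]
  rw [intervalIntegral.integral_sub, intervalIntegral.integral_const_mul, hre, hcos] at hle
  · have e1 : (q / 2) ^ 2 * (8 / 9) = γ ^ 2 := by rw [hγ, mul_pow, hA2]
    rw [← hp] at e1
    rw [e1]
    linarith
  · apply Continuous.intervalIntegrable
    have h2 : Continuous (fun t : ℝ => (G (Complex.exp (t * Complex.I)) + (γ : ℂ) *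
        (Complex.exp (-(t * Complex.I)) * G (Complex.exp (t * Complex.I)))).re) :=
      Complex.continuous_re.comp hcont2
    fun_prop
  · apply Continuous.intervalIntegrable
    fun_prop

end Pool.Agent.K7.H11.UP
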